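import Mathlib

set_option autoImplicit false

namespace Pool.Agent.Results.MP_83c24b_al

open MvPolynomial

/-- An affine algebraic group over an (algebraically closed) field `K`, in classical terms: a
Zariski closed subset `carrier` of an affine space `K^ι` with `ι` finite, together with a group
structure on it whose multiplication and inversion are given by polynomials in the coordinates.
`carrier` with this group structure is the group of `K`-points. -/
structure AlgGroup (K : Type) [Field K] where
  /-- the coordinates of the ambient affine space -/
  ι : Type
  /-- finitely many coordinates -/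
  fin : Finite ι
  /-- the set of `K`-points -/
  carrier : Set (ι → K)
  /-- the set of points is Zariski closed -/
  closed : ∃ S : Set (MvPolynomial ι K), carrier = {v | ∀ p ∈ S, eval v p = 0}
  /-- the group structure -/
  grp : Group carrier
  /-- multiplication is a polynomial map -/
  mul_poly : ∃ P : ι → MvPolynomial (ι ⊕ ι) K,
    ∀ (g h : carrier) (i : ι), (g * h).1 i = eval (Sum.elim g.1 h.1) (P i)
  /-- inversion is a polynomial map -/
  inv_poly : ∃ P : ι → MvPolynomial ι K,
    ∀ (g : carrier) (i : ι), (g⁻¹).1 i = eval g.1 (P i)

attribute [instance] AlgGroup.grp

variable {K : Type} [Field K]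

/-- The underlying variety is irreducible (for an algebraic group: connected). -/
def AlgGroup.IsIrreducible (G : AlgGroup K) : Prop :=
  ∀ p q : MvPolynomial G.ι K, (∀ g ∈ G.carrier, eval g p * eval g q = 0) →
    (∀ g ∈ G.carrier, eval g p = 0) ∨ (∀ g ∈ G.carrier, eval g q = 0)

/-- The group of points has trivial centre. -/
def AlgGroup.TrivialCentre (G : AlgGroup K) : Prop :=
  Subgroup.center G.carrier = ⊥

/-- The group of points is nontrivial and is not isomorphic, even as an abstract group, to a
direct product of two nontrivial groups. In particular `G` is not isomorphic as an algebraic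
group to a product of two nontrivial algebraic groups. -/
def AlgGroup.AbstractlyIndecomposable (G : AlgGroup K) : Prop :=
  Nontrivial G.carrier ∧
  ∀ (A B : Type) [Group A] [Group B], Nonempty (G.carrier ≃* A × B) →
    Subsingleton A ∨ Subsingleton B

/-- The isomorphism `φ` of groups of points is semialgebraic: it is `α ∘ σ_*`, where `σ` is an
automorphism of the field `K`, `σ_*` applies `σ` to the coordinates, and `α` is a morphism of
varieties, that is, a map given by polynomials in the coordinates. (The map induced by `α` on
the points of the conjugate group is then automatically a bijective homomorphism.) -/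
def IsSemialgebraic {G H : AlgGroup K} (φ : G.carrier ≃* H.carrier) : Prop :=
  ∃ (σ : K ≃+* K) (P : H.ι → MvPolynomial G.ι K),
    ∀ (g : G.carrier) (i : H.ι), (φ g).1 i = eval (fun j => σ (g.1 j)) (P i)

/-- Over `K` there are two connected affine algebraic groups with trivial centres which are
abstractly indecomposable and have isomorphic groups of points, but such that no isomorphism of
their groups of points is semialgebraic. -/
def CounterexampleOver (K : Type) [Field K] : Prop :=
  ∃ G H : AlgGroup K,
    G.IsIrreducible ∧ H.IsIrreducible ∧
    G.TrivialCentre ∧ H.TrivialCentre ∧
    G.AbstractlyIndecomposable ∧ H.AbstractlyIndecomposable ∧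
    Nonempty (G.carrier ≃* H.carrier) ∧
    ∀ φ : G.carrier ≃* H.carrier, ¬ IsSemialgebraic φ

end Pool.Agent.Results.MP_83c24b_al
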