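import Mathlib
import Pool.Agent.Results.MP_83c24b_al.Defs
import Pool.Agent.H13.SA.Main

set_option autoImplicit false

namespace Pool.Agent.Results.MP_83c24b_al.NotSemialgebraic

open Pool.Agent.Results.MP_83c24b_al

/-- Over every algebraically closed field of characteristic `0` with a transcendental element
over `ℚ`, in particular over `ℂ`, there are two connected affine algebraic groups with trivial
centres, indecomposable even as abstract groups, whose groups of points are isomorphic but have
no semialgebraic isomorphism. -/
theorem result : (∀ (K : Type) [Field K] [IsAlgClosed K] [CharZero K],
    (∃ c : K, Transcendental ℚ c) → CounterexampleOver K) ∧ CounterexampleOver ℂ :=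
  H13.SA.main

end Pool.Agent.Results.MP_83c24b_al.NotSemialgebraic
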